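import Pool.Agent.H31.Csf

open Pool.Agent.H31.Snf

universe u v

theorem Pool.Agent.Results.MP_1e4d5b_gt.Main.result
    {X : Type u} [TopologicalSpace X] [T35Space X]
    {M : Type v} [TopologicalSpace M] [TopologicalSpace.MetrizableSpace M] (f : M → X)
    (hc : Continuous f) (hcl : IsClosedMap f) (hs : Function.Surjective f)
    (h : CsfCountable (An X 4) (TopologicalSpace.induced Subtype.val (topA X))) (n : ℕ) :
    CsfCountable (An X n) (TopologicalSpace.induced Subtype.val (topA X)) := by
  letI := TopologicalSpace.metrizableSpaceMetric M
  exact csfA hc hcl hs h n
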